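import Pool.Agent.W5h68.RB.Rel

set_option autoImplicit false

/-!
# Szemerédi's theorem in sets with a small digit boundary, unions of cells and unate sets
-/

namespace Pool.Agent.W5h68.RB

open Finset Function Pool.Agent.W5h68.RA

section
variable {e : ℕ}

/-- copies in slices -/
theorem copy_of_slice {m : ℕ} {P : Finset (Fin e → ℤ)} {A : Finset (Fin e → ℕ)}
    (c : Fin e → ℕ) (t : ℕ) (ht : 0 < t)
    (h : Copy P ((Fintype.piFinset fun _ : Fin e => range (2 ^ m)).filter
      fun u => (fun i => c i + t * u i) ∈ A)) : Copy P A := by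
  obtain ⟨a, s, hs, h⟩ := h
  refine ⟨fun i => c i + t * a i, t * s, Nat.mul_pos ht hs, fun v hv => ?_⟩
  obtain ⟨b, hb, hbe⟩ := h v hv
  refine ⟨_, (mem_filter.1 hb).2, fun i => ?_⟩
  have := hbe i
  push_cast
  rw [this]
  ring

/-- **Szemerédi's theorem relative to a set with a small digit boundary** -/
theorem relative (P : Finset (Fin e → ℤ)) (δ : ℝ) (hδ : 0 < δ) :
    ∃ β : ℝ, 0 < β ∧ β ≤ 1 ∧ ∀ M : ℕ, 1 / β ≤ M → ∀ F A : Finset (Fin e → ℕ),
      (∀ a ∈ F, ∀ i, a i < 2 ^ M) → (exits M F : ℝ) ≤ β * M * F.card → ¬ Copy P A →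
      ((A ∩ F).card : ℝ) ≤ δ * F.card := by
  classical
  obtain ⟨L₀, hL₀⟩ := szem e P (δ / 2) (by positivity)
  set m : ℕ := L₀ + 1 with hm
  have hm1 : 1 ≤ m := by omega
  have hm1' : (1 : ℝ) ≤ m := by exact_mod_cast hm1
  have hLm : L₀ ≤ 2 ^ m := by
    have : m < 2 ^ m := Nat.lt_two_pow_self
    omega
  set β : ℝ := min (δ / (4 * m)) (1 / m) with hβ
  have hβ0 : 0 < β := lt_min (by positivity) (by positivity)
  have hβ1 : β ≤ δ / (4 * m) := min_le_left _ _
  have hβ2 : β ≤ 1 / m := min_le_right _ _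
  refine ⟨β, hβ0, hβ2.trans (by rw [div_le_one (by positivity)]; exact hm1'),
    fun M hM F A hF0 hF hA => ?_⟩
  have hmM' : (m : ℝ) ≤ M := by
    refine le_trans ?_ hM
    rw [le_div_iff₀ hβ0]
    rw [le_div_iff₀ (by positivity)] at hβ2
    linarith
  have hmM : m ≤ M := by exact_mod_cast hmM'
  have hk1 : 1 ≤ M / m := (Nat.one_le_div_iff hm1).2 hmM
  have hM2 : (M : ℝ) ≤ 2 * m * (M / m : ℕ) := by
    have h3 : M < (M / m + 1) * m := by
      have := Nat.lt_div_mul_add (a := M) (b := m) (by omega)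
      nlinarith
    have h5 : M ≤ 2 * m * (M / m) := by nlinarith
    exact_mod_cast h5
  have h := rel_exits (m := m) F A hF0 ⌊δ / 2 * (2 : ℝ) ^ (e * m)⌋₊ (by
    intro c t ht
    apply Nat.le_floor
    by_contra hcon
    push Not at hcon
    apply hA
    apply copy_of_slice (m := m) c t ht
    apply hL₀ _ hLm
    · intro a ha i
      exact mem_range.1 ((Fintype.mem_piFinset.1 (mem_filter.1 ha).1) i)
    · have : ((2 ^ m : ℕ) : ℝ) ^ e = (2 : ℝ) ^ (e * m) := by
        push_cast
        rw [← pow_mul, mul_comm]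
      rw [this]
      exact hcon.le)
  set k : ℕ := M / m with hk
  have hk0 : (0 : ℝ) < k := by exact_mod_cast hk1
  have h' : (k : ℝ) * ((2 : ℝ) ^ (e * m) * (A ∩ F).card) ≤
      k * (⌊δ / 2 * (2 : ℝ) ^ (e * m)⌋₊ * F.card) + (2 : ℝ) ^ (e * m) * exits M F := by
    exact_mod_cast h
  have h6 : ((⌊δ / 2 * (2 : ℝ) ^ (e * m)⌋₊ : ℕ) : ℝ) ≤ δ / 2 * (2 : ℝ) ^ (e * m) :=
    Nat.floor_le (by positivity)
  have hF' : (0 : ℝ) ≤ F.card := Nat.cast_nonneg _
  have h7 : (k : ℝ) * (⌊δ / 2 * (2 : ℝ) ^ (e * m)⌋₊ * F.card) ≤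
      k * (δ / 2 * (2 : ℝ) ^ (e * m) * F.card) :=
    mul_le_mul_of_nonneg_left (mul_le_mul_of_nonneg_right h6 hF') hk0.le
  have h8 : (exits M F : ℝ) ≤ k * (δ / 2 * F.card) := by
    refine hF.trans ?_
    have h9 : β * M ≤ δ / (4 * m) * (2 * m * k) :=
      mul_le_mul hβ1 hM2 (Nat.cast_nonneg _) (by positivity)
    have h10 : δ / (4 * m) * (2 * m * k) = k * (δ / 2) := by
      field_simp
      ring
    calc β * M * F.card ≤ (k * (δ / 2)) * F.card :=
          mul_le_mul_of_nonneg_right (h9.trans h10.le) hF'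
      _ = _ := by ring
  have h9 : (2 : ℝ) ^ (e * m) * exits M F ≤ (2 : ℝ) ^ (e * m) * (k * (δ / 2 * F.card)) :=
    mul_le_mul_of_nonneg_left h8 (by positivity)
  have h10 : (2 : ℝ) ^ (e * m) * (k * (A ∩ F).card) ≤ (2 : ℝ) ^ (e * m) * (k * (δ * F.card)) := by
    linarith
  exact le_of_mul_le_mul_left (le_of_mul_le_mul_left h10 (by positivity)) hk0

theorem exits_swap (M : ℕ) (F : Finset (Fin e → ℕ)) [DecidableEq (Fin e → ℕ)] : exits M F =
    ∑ a ∈ F, ((univ ×ˢ range M : Finset (Fin e × ℕ)).filter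
      fun p => flipDigit a p.1 p.2 ∉ F).card := by
  classical
  unfold exits
  simp only [card_filter]
  rw [← sum_product', sum_comm]
  apply sum_congr rfl
  intro a _
  apply sum_congr rfl
  intro p _
  congr

/-- unions of cells -/
theorem exits_cells (M k : ℕ) (F : Finset (Fin e → ℕ)) (hF0 : ∀ a ∈ F, ∀ i, a i < 2 ^ M)
    (hF : ∀ a ∈ F, ∃ S : Finset (Fin e × ℕ), S.card ≤ k ∧ ∀ b : Fin e → ℕ,
      (∀ i, b i < 2 ^ M) → (∀ p ∈ S, (b p.1).testBit p.2 = (a p.1).testBit p.2) → b ∈ F) :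
    exits M F ≤ k * F.card := by
  classical
  rw [exits_swap, mul_comm, ← smul_eq_mul]
  apply sum_le_card_nsmul
  intro a ha
  obtain ⟨S, hS, h⟩ := hF a ha
  refine le_trans (card_le_card ?_) hS
  intro p hp
  have hp' := mem_filter.1 hp
  by_contra hpS
  apply hp'.2
  apply h
  · intro i
    unfold flipDigit
    by_cases hi : i = p.1
    · subst hi
      rw [update_self]
      exact Nat.xor_lt_two_pow (hF0 a ha p.1) (Nat.pow_lt_pow_right (by norm_num)
        (mem_range.1 (mem_product.1 hp'.1).2))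
    · rw [update_of_ne hi]
      exact hF0 a ha i
  · intro q hq
    unfold flipDigit
    by_cases hi : q.1 = p.1
    · have hne : q.2 ≠ p.2 := by
        intro h2
        exact hpS (by rwa [← Prod.ext hi h2])
      rw [hi, update_self, Nat.testBit_xor, Nat.testBit_two_pow]
      simp [hne.symm]
    · rw [update_of_ne hi]

/-- unate sets: exits and signs -/
theorem exits_unate (M : ℕ) (F : Finset (Fin e → ℕ)) (s : Fin e → ℕ → Bool)
    (hs : ∀ a ∈ F, ∀ i, ∀ t < M, (a i).testBit t ≠ s i t → flipDigit a i t ∈ F) :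
    (exits M F : ℝ) ≤ ∑ a ∈ F, ∑ i, ∑ t ∈ range M,
      (if (a i).testBit t = s i t then (1 : ℝ) else -1) := by
  classical
  rw [sum_comm]
  unfold exits
  push_cast
  apply sum_le_sum
  intro i _
  rw [sum_comm]
  apply sum_le_sum
  intro t ht
  have ht' := mem_range.1 ht
  have hbit : ∀ a : Fin e → ℕ, (flipDigit a i t i).testBit t = !((a i).testBit t) := by
    intro a
    unfold flipDigit
    rw [update_self, Nat.testBit_xor, Nat.testBit_two_pow]
    simp
  have hinv : ∀ a : Fin e → ℕ, flipDigit (flipDigit a i t) i t = a := by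
    intro a
    unfold flipDigit
    rw [update_self, update_idem, Nat.xor_assoc, Nat.xor_self, Nat.xor_zero, update_eq_self]
  have h1 : (F.filter fun a => flipDigit a i t ∉ F).card +
      (F.filter fun a => ¬ (a i).testBit t = s i t).card ≤
      (F.filter fun a => (a i).testBit t = s i t).card := by
    have h2 : (F.filter fun a => ¬ (a i).testBit t = s i t).card =
        ((F.filter fun a => ¬ (a i).testBit t = s i t).image fun a => flipDigit a i t).card := by
      rw [card_image_of_injective]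
      intro a b hab
      rw [← hinv a, ← hinv b]
      exact congrArg (fun x => flipDigit x i t) hab
    rw [h2, ← card_union_of_disjoint]
    · apply card_le_card
      intro a ha
      rcases mem_union.1 ha with ha | ha
      · have ha' := mem_filter.1 ha
        refine mem_filter.2 ⟨ha'.1, ?_⟩
        by_contra h3
        exact ha'.2 (hs a ha'.1 i t ht' h3)
      · obtain ⟨b, hb, rfl⟩ := mem_image.1 ha
        have hb' := mem_filter.1 hb
        refine mem_filter.2 ⟨hs b hb'.1 i t ht' hb'.2, ?_⟩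
        rw [hbit]
        have := hb'.2
        revert this
        cases (b i).testBit t <;> cases s i t <;> simp
    · rw [disjoint_left]
      intro a ha ha2
      obtain ⟨b, hb, rfl⟩ := mem_image.1 ha2
      apply (mem_filter.1 ha).2
      rw [hinv]
      exact (mem_filter.1 hb).1
  have h3 : ∑ a ∈ F, (if (a i).testBit t = s i t then (1 : ℝ) else -1) =
      (F.filter fun a => (a i).testBit t = s i t).card -
        (F.filter fun a => ¬ (a i).testBit t = s i t).card := by
    rw [sum_ite, sum_const, sum_const]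
    simp
    ring
  rw [h3]
  have h4 : ((F.filter fun a => flipDigit a i t ∉ F).card : ℝ) +
      (F.filter fun a => ¬ (a i).testBit t = s i t).card ≤
      (F.filter fun a => (a i).testBit t = s i t).card := by exact_mod_cast h1
  linarith

/-- the exponential moment -/
theorem exp_moment (M : ℕ) (F : Finset (Fin e → ℕ)) (hF0 : ∀ a ∈ F, ∀ i, a i < 2 ^ M)
    (s : Fin e → ℕ → Bool) (lam : ℝ) :
    ∑ a ∈ F, Real.exp (lam * ∑ i, ∑ t ∈ range M,
      (if (a i).testBit t = s i t then (1 : ℝ) else -1)) ≤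
      2 ^ (e * M) * Real.exp ((e * M : ℕ) * (lam ^ 2 / 2)) := by
  classical
  set g : (Fin e × Fin M → Bool) → ℝ := fun z =>
    ∏ p : Fin e × Fin M, Real.exp (lam * if z p = s p.1 p.2 then (1 : ℝ) else -1) with hg
  have h1 : ∑ a ∈ F, Real.exp (lam * ∑ i, ∑ t ∈ range M,
      (if (a i).testBit t = s i t then (1 : ℝ) else -1)) =
      ∑ a ∈ F, g fun p => (a p.1).testBit p.2 := by
    apply sum_congr rfl
    intro a _
    rw [hg]
    simp only
    rw [← Real.exp_sum, ← mul_sum, Fintype.sum_prod_type]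
    congr 2
    apply sum_congr rfl
    intro i _
    rw [← Fin.sum_univ_eq_sum_range (fun t => if (a i).testBit t = s i t then (1 : ℝ) else -1) M]
  have hinj : Set.InjOn (fun (a : Fin e → ℕ) (p : Fin e × Fin M) => (a p.1).testBit p.2) F := by
    intro a ha b hb hab
    funext i
    apply Nat.eq_of_testBit_eq
    intro t
    rcases Nat.lt_or_ge t M with ht | ht
    · exact congrFun hab (i, ⟨t, ht⟩)
    · rw [Nat.testBit_lt_two_pow ((hF0 a ha i).trans_le (Nat.pow_le_pow_right (by norm_num) ht)),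
        Nat.testBit_lt_two_pow ((hF0 b hb i).trans_le (Nat.pow_le_pow_right (by norm_num) ht))]
  have h2 : ∑ a ∈ F, g (fun p => (a p.1).testBit p.2) ≤ ∑ z, g z := by
    rw [← sum_image (f := g) (g := fun (a : Fin e → ℕ) (p : Fin e × Fin M) =>
      (a p.1).testBit p.2) hinj]
    exact sum_le_sum_of_subset_of_nonneg (subset_univ _)
      (fun z _ _ => prod_nonneg fun p _ => (Real.exp_pos _).le)
  have h3 : ∑ z, g z = (Real.exp lam + Real.exp (-lam)) ^ (e * M) := by
    rw [hg]
    have := (Fintype.prod_sum (fun (p : Fin e × Fin M) (b : Bool) =>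
      Real.exp (lam * if b = s p.1 p.2 then (1 : ℝ) else -1))).symm
    rw [this]
    have h4 : ∀ p : Fin e × Fin M, ∑ b : Bool, Real.exp (lam * if b = s p.1 p.2 then (1 : ℝ) else -1) =
        Real.exp lam + Real.exp (-lam) := by
      intro p
      rw [Fintype.sum_bool]
      cases s p.1 p.2
      · simp
        ring
      · simp
    rw [prod_congr rfl fun p _ => h4 p, prod_const, card_univ, Fintype.card_prod,
      Fintype.card_fin, Fintype.card_fin]
  have h4 : Real.exp lam + Real.exp (-lam) ≤ 2 * Real.exp (lam ^ 2 / 2) := by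
    have := Real.cosh_le_exp_half_sq lam
    rw [Real.cosh_eq] at this
    linarith
  rw [h1]
  refine h2.trans ?_
  rw [h3]
  calc (Real.exp lam + Real.exp (-lam)) ^ (e * M) ≤ (2 * Real.exp (lam ^ 2 / 2)) ^ (e * M) :=
        pow_le_pow_left₀ (by positivity) h4 _
    _ = _ := by rw [mul_pow, ← Real.exp_nat_mul]

/-- the boundary of a large unate set -/
theorem exits_unate_le (M : ℕ) (F : Finset (Fin e → ℕ)) (hF0 : ∀ a ∈ F, ∀ i, a i < 2 ^ M)
    (s : Fin e → ℕ → Bool)
    (hs : ∀ a ∈ F, ∀ i, ∀ t < M, (a i).testBit t ≠ s i t → flipDigit a i t ∈ F)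
    (γ lam : ℝ) (hγ : 0 ≤ γ) (hlam : 0 < lam)
    (hcard : (2 : ℝ) ^ ((1 - γ) * (e * M : ℕ)) ≤ F.card) :
    (exits M F : ℝ) ≤ ((lam / 2 + γ / lam) * (e * M : ℕ)) * F.card := by
  classical
  have h2 : (0 : ℝ) < F.card := lt_of_lt_of_le (Real.rpow_pos_of_pos (by norm_num) _) hcard
  set X : (Fin e → ℕ) → ℝ := fun a => ∑ i, ∑ t ∈ range M,
    (if (a i).testBit t = s i t then (1 : ℝ) else -1) with hX
  have h0 : (exits M F : ℝ) ≤ ∑ a ∈ F, X a := exits_unate M F s hs
  set K : ℕ := e * M with hK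
  have h1 : ∑ a ∈ F, Real.exp (lam * X a) ≤ 2 ^ K * Real.exp (K * (lam ^ 2 / 2)) :=
    exp_moment M F hF0 s lam
  set v : ℝ := (∑ a ∈ F, X a) / F.card with hv
  have h3 : (F.card : ℝ) * Real.exp (lam * v) ≤ ∑ a ∈ F, Real.exp (lam * X a) := by
    have h4 : ∀ a ∈ F, Real.exp (lam * v) * (1 + (lam * X a - lam * v)) ≤
        Real.exp (lam * X a) := by
      intro a _
      have h5 := Real.add_one_le_exp (lam * X a - lam * v)
      calc Real.exp (lam * v) * (1 + (lam * X a - lam * v)) ≤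
            Real.exp (lam * v) * Real.exp (lam * X a - lam * v) :=
            mul_le_mul_of_nonneg_left (by linarith) (Real.exp_pos _).le
        _ = Real.exp (lam * X a) := by rw [← Real.exp_add]; congr 1; ring
    refine le_trans (le_of_eq ?_) (sum_le_sum h4)
    rw [← mul_sum, sum_add_distrib, sum_sub_distrib, ← mul_sum, sum_const, sum_const,
      nsmul_eq_mul, nsmul_eq_mul, hv]
    field_simp
    ring
  have h4 := h3.trans h1
  have h5 : Real.log F.card + lam * v ≤ K * Real.log 2 + K * (lam ^ 2 / 2) := by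
    have h6 := Real.log_le_log (by positivity) h4
    rwa [Real.log_mul h2.ne' (Real.exp_pos _).ne', Real.log_exp,
      Real.log_mul (by positivity) (Real.exp_pos _).ne', Real.log_exp, Real.log_pow] at h6
  have h6 : (1 - γ) * K * Real.log 2 ≤ Real.log F.card := by
    have h7 := Real.log_le_log (Real.rpow_pos_of_pos (by norm_num) _) hcard
    rwa [Real.log_rpow (by norm_num)] at h7
  have hl2 : Real.log 2 ≤ 1 := by
    have := Real.log_two_lt_d9
    linarith
  have hK0 : (0 : ℝ) ≤ K := Nat.cast_nonneg _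
  have h7 : lam * v ≤ γ * K + K * (lam ^ 2 / 2) := by
    have h8 : γ * K * Real.log 2 ≤ γ * K * 1 :=
      mul_le_mul_of_nonneg_left hl2 (by positivity)
    nlinarith
  have h8 : v ≤ (lam / 2 + γ / lam) * K := by
    have h9 : lam * ((lam / 2 + γ / lam) * K) = γ * K + K * (lam ^ 2 / 2) := by
      field_simp
      ring
    exact le_of_mul_le_mul_left (by rw [h9]; exact h7) hlam
  refine h0.trans ?_
  have h9 : ∑ a ∈ F, X a = v * F.card := by
    rw [hv]
    field_simp
  rw [h9]
  exact mul_le_mul_of_nonneg_right h8 h2.le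

/-- **Szemerédi's theorem relative to a large unate set** -/
theorem relative_unate (P : Finset (Fin e → ℤ)) (δ : ℝ) (hδ : 0 < δ) :
    ∃ γ : ℝ, 0 < γ ∧ ∀ M : ℕ, 1 / γ ≤ M → ∀ F A : Finset (Fin e → ℕ),
      (∀ a ∈ F, ∀ i, a i < 2 ^ M) → ∀ s : Fin e → ℕ → Bool,
      (∀ a ∈ F, ∀ i, ∀ t < M, (a i).testBit t ≠ s i t → flipDigit a i t ∈ F) →
      (2 : ℝ) ^ ((1 - γ) * (e * M : ℕ)) ≤ F.card → ¬ Copy P A →
      ((A ∩ F).card : ℝ) ≤ δ * F.card := by
  obtain ⟨β, hβ0, hβ1, h⟩ := relative P δ hδ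
  have he : (0 : ℝ) < e + 1 := by positivity
  set γ : ℝ := β ^ 2 / (2 * (e + 1) ^ 2) with hγ
  have hγ0 : 0 < γ := by positivity
  have hγβ : γ ≤ β := by
    rw [hγ, div_le_iff₀ (by positivity)]
    have h1 : (1 : ℝ) ≤ (e + 1) ^ 2 := one_le_pow₀ (by linarith [Nat.cast_nonneg (α := ℝ) e])
    nlinarith
  refine ⟨γ, hγ0, fun M hM F A hF0 s hs hcard hA => h M ?_ F A hF0 ?_ hA⟩
  · exact le_trans (one_div_le_one_div_of_le hγ0 hγβ) hM
  · refine (exits_unate_le M F hF0 s hs γ (β / (e + 1)) hγ0.le (by positivity) hcard).trans ?_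
    apply mul_le_mul_of_nonneg_right _ (Nat.cast_nonneg _)
    have e1 : β / (e + 1) / 2 + γ / (β / (e + 1)) = β / (e + 1) := by
      rw [hγ]
      field_simp
      ring
    rw [e1]
    push_cast
    have h2 : β / (e + 1) * (e * M) ≤ β / (e + 1) * ((e + 1) * M) := by
      apply mul_le_mul_of_nonneg_left _ (by positivity)
      apply mul_le_mul_of_nonneg_right _ (Nat.cast_nonneg _)
      linarith
    refine h2.trans (le_of_eq ?_)
    field_simp

end

end Pool.Agent.W5h68.RB
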