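import Mathlib

set_option autoImplicit false

/-!
# Pairs of elements of a progression-free set which differ in one binary digit

`cnt M f` is the number of `a < 2^M` with `f a`, `stay M f` the number of pairs `(a, t)`, `t < M`,
with `f a` and `f (a ^^^ 2^t)`, where `a ^^^ 2^t` is `a` with the digit `t` changed.
-/

namespace Pool.Agent.W5h68.RB

open Finset

/-- no progression `a, a + d, a + 2 d`, `d ≥ 1` -/
def Free (f : ℕ → Bool) : Prop :=
  ∀ a d : ℕ, 1 ≤ d → f a = true → f (a + d) = true → f (a + 2 * d) = false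

/-- the even part -/
def ev (f : ℕ → Bool) : ℕ → Bool := fun c => f (2 * c)
/-- the odd part -/
def od (f : ℕ → Bool) : ℕ → Bool := fun c => f (2 * c + 1)

def cnt (M : ℕ) (f : ℕ → Bool) : ℕ := ∑ a ∈ range (2 ^ M), (f a).toNat

def stay (M : ℕ) (f : ℕ → Bool) : ℕ :=
  ∑ t ∈ range M, ∑ a ∈ range (2 ^ M), (f a && f (a ^^^ 2 ^ t)).toNat

theorem sum_two (n : ℕ) (g : ℕ → ℕ) :
    ∑ a ∈ range (2 * n), g a = ∑ c ∈ range n, (g (2 * c) + g (2 * c + 1)) := by
  induction n with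
  | zero => simp
  | succ n ih =>
    rw [show 2 * (n + 1) = 2 * n + 1 + 1 by ring, sum_range_succ, sum_range_succ, ih,
      sum_range_succ]
    ring

theorem free_ev {f : ℕ → Bool} (h : Free f) : Free (ev f) := by
  intro a d hd h1 h2
  have := h (2 * a) (2 * d) (by omega) h1 (by
    have : 2 * a + 2 * d = 2 * (a + d) := by ring
    rw [this]; exact h2)
  show f (2 * (a + 2 * d)) = false
  rw [show 2 * (a + 2 * d) = 2 * a + 2 * (2 * d) by ring]
  exact this

theorem free_od {f : ℕ → Bool} (h : Free f) : Free (od f) := by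
  intro a d hd h1 h2
  have := h (2 * a + 1) (2 * d) (by omega) h1 (by
    have : 2 * a + 1 + 2 * d = 2 * (a + d) + 1 := by ring
    rw [this]; exact h2)
  show f (2 * (a + 2 * d) + 1) = false
  rw [show 2 * (a + 2 * d) + 1 = 2 * a + 1 + 2 * (2 * d) by ring]
  exact this

theorem cnt_succ (M : ℕ) (f : ℕ → Bool) : cnt (M + 1) f = cnt M (ev f) + cnt M (od f) := by
  unfold cnt
  rw [pow_succ, mul_comm, sum_two, sum_add_distrib]
  rfl

theorem xor_even (c t : ℕ) : (2 * c) ^^^ 2 ^ (t + 1) = 2 * (c ^^^ 2 ^ t) := by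
  have h := Nat.shiftLeft_xor_distrib (a := c) (b := 2 ^ t) (i := 1)
  simp only [Nat.shiftLeft_eq, pow_one] at h
  rw [mul_comm 2 c, pow_succ, ← h, mul_comm]

theorem xor_odd (c t : ℕ) : (2 * c + 1) ^^^ 2 ^ (t + 1) = 2 * (c ^^^ 2 ^ t) + 1 := by
  have h1 : ∀ c : ℕ, 2 * c + 1 = (2 * c) ^^^ 1 := by
    intro c
    apply Nat.eq_of_testBit_eq
    intro i
    rcases i with _ | i
    · simp
    · simp [Nat.testBit_succ]
  rw [h1 c, Nat.xor_assoc, Nat.xor_comm 1, ← Nat.xor_assoc, xor_even, ← h1]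

theorem xor_zero_even (c : ℕ) : (2 * c) ^^^ 2 ^ 0 = 2 * c + 1 := by
  apply Nat.eq_of_testBit_eq
  intro i
  rcases i with _ | i
  · simp
  · simp [Nat.testBit_succ]

theorem xor_zero_odd (c : ℕ) : (2 * c + 1) ^^^ 2 ^ 0 = 2 * c := by
  rw [← xor_zero_even, Nat.xor_assoc, Nat.xor_self, Nat.xor_zero]

theorem stay_succ (M : ℕ) (f : ℕ → Bool) : stay (M + 1) f =
    2 * ∑ c ∈ range (2 ^ M), (f (2 * c) && f (2 * c + 1)).toNat + stay M (ev f) +
      stay M (od f) := by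
  unfold stay
  rw [sum_range_succ']
  have e : 2 ^ (M + 1) = 2 * 2 ^ M := by rw [pow_succ, mul_comm]
  rw [e, sum_two]
  have h0 : ∑ c ∈ range (2 ^ M), ((f (2 * c) && f (2 * c ^^^ 2 ^ 0)).toNat +
      (f (2 * c + 1) && f ((2 * c + 1) ^^^ 2 ^ 0)).toNat) =
      2 * ∑ c ∈ range (2 ^ M), (f (2 * c) && f (2 * c + 1)).toNat := by
    rw [mul_sum]
    apply sum_congr rfl
    intro c _
    rw [xor_zero_even, xor_zero_odd, Bool.and_comm (f (2 * c + 1))]
    ring
  rw [h0]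
  have h1 : ∀ t ∈ range M, ∑ a ∈ range (2 * 2 ^ M), (f a && f (a ^^^ 2 ^ (t + 1))).toNat =
      ∑ a ∈ range (2 ^ M), (ev f a && ev f (a ^^^ 2 ^ t)).toNat +
        ∑ a ∈ range (2 ^ M), (od f a && od f (a ^^^ 2 ^ t)).toNat := by
    intro t _
    rw [sum_two, ← sum_add_distrib]
    apply sum_congr rfl
    intro c _
    rw [xor_even, xor_odd]
    rfl
  rw [sum_congr rfl h1, sum_add_distrib]
  ring

/-- the weight of a pattern of four places -/
def wt (b₀ b₁ b₂ b₃ : Bool) : ℤ :=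
  match b₀, b₁, b₂, b₃ with
  | true, true, false, false => 3
  | false, false, true, true => 3
  | true, false, true, false => 1
  | false, true, false, true => 1
  | true, false, false, true => -1
  | false, true, true, false => -1
  | true, true, false, true => 4
  | true, false, true, true => 4
  | _, _, _, _ => 0

/-- no progression in a pattern of four places -/
def ok4 (b₀ b₁ b₂ b₃ : Bool) : Bool := !(b₀ && b₁ && b₂) && !(b₁ && b₂ && b₃)

/-- no progression in a pattern of eight places -/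
def ok8 (b₀ b₁ b₂ b₃ b₄ b₅ b₆ b₇ : Bool) : Bool :=
  !(b₀ && b₁ && b₂) && !(b₁ && b₂ && b₃) && !(b₂ && b₃ && b₄) && !(b₃ && b₄ && b₅) &&
  !(b₄ && b₅ && b₆) && !(b₅ && b₆ && b₇) && !(b₀ && b₂ && b₄) && !(b₁ && b₃ && b₅) &&
  !(b₂ && b₄ && b₆) && !(b₃ && b₅ && b₇) && !(b₀ && b₃ && b₆) && !(b₁ && b₄ && b₇)

theorem local8 : ∀ b₀ b₁ b₂ b₃ b₄ b₅ b₆ b₇ : Bool, ok8 b₀ b₁ b₂ b₃ b₄ b₅ b₆ b₇ = true →
    4 * (((b₀ && b₁).toNat : ℤ) + (b₂ && b₃).toNat + (b₄ && b₅).toNat + (b₆ && b₇).toNat) ≤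
      ((b₀.toNat : ℤ) + b₁.toNat + b₂.toNat + b₃.toNat + b₄.toNat + b₅.toNat + b₆.toNat +
        b₇.toNat) + wt b₀ b₁ b₂ b₃ + wt b₄ b₅ b₆ b₇ - wt b₀ b₂ b₄ b₆ - wt b₁ b₃ b₅ b₇ := by
  decide

theorem local4 : ∀ b₀ b₁ b₂ b₃ : Bool, ok4 b₀ b₁ b₂ b₃ = true →
    8 * (((b₀ && b₁).toNat : ℤ) + (b₂ && b₃).toNat + (b₀ && b₂).toNat + (b₁ && b₃).toNat) ≤
      2 * wt b₀ b₁ b₂ b₃ + 3 * ((b₀.toNat : ℤ) + b₁.toNat + b₂.toNat + b₃.toNat) := by
  decide

theorem local4' : ∀ b₀ b₁ b₂ b₃ : Bool, ok4 b₀ b₁ b₂ b₃ = true →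
    2 * wt b₀ b₁ b₂ b₃ ≤ 3 * ((b₀.toNat : ℤ) + b₁.toNat + b₂.toNat + b₃.toNat) := by
  decide

/-- the weight -/
def W (M : ℕ) (f : ℕ → Bool) : ℤ :=
  ∑ c ∈ range (2 ^ M), wt (f (4 * c)) (f (4 * c + 1)) (f (4 * c + 2)) (f (4 * c + 3))

theorem free_not {f : ℕ → Bool} (h : Free f) (a b c : ℕ) (h1 : a < b) (h2 : a + c = 2 * b) :
    (f a && f b && f c) = false := by
  cases ha : f a
  · rfl
  cases hb : f b
  · rfl
  have := h a (b - a) (by omega) ha (by
    rw [show a + (b - a) = b by omega]; exact hb)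
  rw [show a + 2 * (b - a) = c by omega] at this
  simp [this]

theorem ok4_of {f : ℕ → Bool} (h : Free f) (c : ℕ) :
    ok4 (f (4 * c)) (f (4 * c + 1)) (f (4 * c + 2)) (f (4 * c + 3)) = true := by
  unfold ok4
  rw [free_not h _ _ _ (by omega) (by omega), free_not h _ _ _ (by omega) (by omega)]
  rfl

theorem ok8_of {f : ℕ → Bool} (h : Free f) (c : ℕ) :
    ok8 (f (8 * c)) (f (8 * c + 1)) (f (8 * c + 2)) (f (8 * c + 3)) (f (8 * c + 4))
      (f (8 * c + 5)) (f (8 * c + 6)) (f (8 * c + 7)) = true := by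
  unfold ok8
  simp only [free_not h (8 * c) (8 * c + 1) (8 * c + 2) (by omega) (by omega),
    free_not h (8 * c + 1) (8 * c + 2) (8 * c + 3) (by omega) (by omega),
    free_not h (8 * c + 2) (8 * c + 3) (8 * c + 4) (by omega) (by omega),
    free_not h (8 * c + 3) (8 * c + 4) (8 * c + 5) (by omega) (by omega),
    free_not h (8 * c + 4) (8 * c + 5) (8 * c + 6) (by omega) (by omega),
    free_not h (8 * c + 5) (8 * c + 6) (8 * c + 7) (by omega) (by omega),
    free_not h (8 * c) (8 * c + 2) (8 * c + 4) (by omega) (by omega),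
    free_not h (8 * c + 1) (8 * c + 3) (8 * c + 5) (by omega) (by omega),
    free_not h (8 * c + 2) (8 * c + 4) (8 * c + 6) (by omega) (by omega),
    free_not h (8 * c + 3) (8 * c + 5) (8 * c + 7) (by omega) (by omega),
    free_not h (8 * c) (8 * c + 3) (8 * c + 6) (by omega) (by omega),
    free_not h (8 * c + 1) (8 * c + 4) (8 * c + 7) (by omega) (by omega)]
  rfl

theorem cnt_four (M : ℕ) (f : ℕ → Bool) : cnt (M + 2) f =
    ∑ c ∈ range (2 ^ M), ((f (4 * c)).toNat + (f (4 * c + 1)).toNat + (f (4 * c + 2)).toNat +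
      (f (4 * c + 3)).toNat) := by
  unfold cnt
  rw [show 2 ^ (M + 2) = 2 * (2 * 2 ^ M) by ring, sum_two, sum_two]
  apply sum_congr rfl
  intro c _
  rw [show 2 * (2 * c) = 4 * c by ring, show 2 * (2 * c + 1) = 4 * c + 2 by ring]
  ring_nf

/-- the weights are at most `3 / 2` for each element -/
theorem W_le (M : ℕ) {f : ℕ → Bool} (h : Free f) : 2 * W M f ≤ 3 * cnt (M + 2) f := by
  rw [cnt_four]
  unfold W
  push_cast
  rw [mul_sum, mul_sum]
  exact sum_le_sum fun c _ => local4' _ _ _ _ (ok4_of h c)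

theorem sum_two_int (n : ℕ) (g : ℕ → ℤ) :
    ∑ a ∈ range (2 * n), g a = ∑ c ∈ range n, (g (2 * c) + g (2 * c + 1)) := by
  induction n with
  | zero => simp
  | succ n ih =>
    rw [show 2 * (n + 1) = 2 * n + 1 + 1 by ring, sum_range_succ, sum_range_succ, ih,
      sum_range_succ]
    ring

theorem step (M : ℕ) {f : ℕ → Bool} (h : Free f) :
    4 * ((∑ c ∈ range (2 ^ (M + 2)), (f (2 * c) && f (2 * c + 1)).toNat : ℕ) : ℤ) ≤
      cnt (M + 3) f + W (M + 1) f - W M (ev f) - W M (od f) := by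
  have e1 : ((∑ c ∈ range (2 ^ (M + 2)), (f (2 * c) && f (2 * c + 1)).toNat : ℕ) : ℤ) =
      ∑ c ∈ range (2 ^ M), (((f (8 * c) && f (8 * c + 1)).toNat : ℤ) +
        (f (8 * c + 2) && f (8 * c + 3)).toNat + (f (8 * c + 4) && f (8 * c + 5)).toNat +
        (f (8 * c + 6) && f (8 * c + 7)).toNat) := by
    push_cast
    rw [show 2 ^ (M + 2) = 2 * (2 * 2 ^ M) by ring, sum_two_int, sum_two_int]
    apply sum_congr rfl
    intro c _
    rw [show 2 * (2 * (2 * c)) = 8 * c by ring, show 2 * (2 * (2 * c) + 1) = 8 * c + 2 by ring,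
      show 2 * (2 * (2 * c + 1)) = 8 * c + 4 by ring,
      show 2 * (2 * (2 * c + 1) + 1) = 8 * c + 6 by ring]
    ring
  have e2 : (cnt (M + 3) f : ℤ) = ∑ c ∈ range (2 ^ M), (((f (8 * c)).toNat : ℤ) +
      (f (8 * c + 1)).toNat + (f (8 * c + 2)).toNat + (f (8 * c + 3)).toNat +
      (f (8 * c + 4)).toNat + (f (8 * c + 5)).toNat + (f (8 * c + 6)).toNat +
      (f (8 * c + 7)).toNat) := by
    unfold cnt
    push_cast
    rw [show 2 ^ (M + 3) = 2 * (2 * (2 * 2 ^ M)) by ring, sum_two_int, sum_two_int, sum_two_int]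
    apply sum_congr rfl
    intro c _
    rw [show 2 * (2 * (2 * c)) = 8 * c by ring, show 2 * (2 * (2 * c) + 1) = 8 * c + 2 by ring,
      show 2 * (2 * (2 * c + 1)) = 8 * c + 4 by ring,
      show 2 * (2 * (2 * c + 1) + 1) = 8 * c + 6 by ring]
    ring
  have e3 : W (M + 1) f = ∑ c ∈ range (2 ^ M),
      (wt (f (8 * c)) (f (8 * c + 1)) (f (8 * c + 2)) (f (8 * c + 3)) +
        wt (f (8 * c + 4)) (f (8 * c + 5)) (f (8 * c + 6)) (f (8 * c + 7))) := by
    unfold W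
    rw [show 2 ^ (M + 1) = 2 * 2 ^ M by ring, sum_two_int]
    apply sum_congr rfl
    intro c _
    rw [show 4 * (2 * c) = 8 * c by ring, show 4 * (2 * c + 1) = 8 * c + 4 by ring]
  have e4 : W M (ev f) = ∑ c ∈ range (2 ^ M),
      wt (f (8 * c)) (f (8 * c + 2)) (f (8 * c + 4)) (f (8 * c + 6)) := by
    unfold W ev
    apply sum_congr rfl
    intro c _
    rw [show 2 * (4 * c) = 8 * c by ring, show 2 * (4 * c + 1) = 8 * c + 2 by ring,
      show 2 * (4 * c + 2) = 8 * c + 4 by ring, show 2 * (4 * c + 3) = 8 * c + 6 by ring]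
  have e5 : W M (od f) = ∑ c ∈ range (2 ^ M),
      wt (f (8 * c + 1)) (f (8 * c + 3)) (f (8 * c + 5)) (f (8 * c + 7)) := by
    unfold W od
    apply sum_congr rfl
    intro c _
    rw [show 2 * (4 * c) + 1 = 8 * c + 1 by ring, show 2 * (4 * c + 1) + 1 = 8 * c + 3 by ring,
      show 2 * (4 * c + 2) + 1 = 8 * c + 5 by ring, show 2 * (4 * c + 3) + 1 = 8 * c + 7 by ring]
  rw [e1, e2, e3, e4, e5, mul_sum, ← sum_add_distrib, ← sum_sub_distrib, ← sum_sub_distrib]
  apply sum_le_sum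
  intro c _
  have := local8 _ _ _ _ _ _ _ _ (ok8_of h c)
  linarith

theorem key : ∀ (M : ℕ) (f : ℕ → Bool), Free f →
    4 * (stay (M + 2) f : ℤ) ≤ (2 * M + 3) * cnt (M + 2) f + 2 * W M f := by
  intro M
  induction M with
  | zero =>
    intro f h
    have h1 : stay 2 f = 2 * ((f 0 && f 1).toNat + (f 2 && f 3).toNat + (f 0 && f 2).toNat +
        (f 1 && f 3).toNat) := by
      simp [stay, sum_range_succ, Bool.and_comm]
      ring
    have h2 := local4 _ _ _ _ (ok4_of h 0)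
    have h3 : cnt 2 f = (f 0).toNat + (f 1).toNat + (f 2).toNat + (f 3).toNat := by
      simp [cnt, sum_range_succ]
    have h4 : W 0 f = wt (f 0) (f 1) (f 2) (f 3) := by simp [W]
    rw [h1, h3, h4]
    simp only [mul_zero, zero_add] at h2
    push_cast
    linarith
  | succ M ih =>
    intro f h
    have h1 := ih (ev f) (free_ev h)
    have h2 := ih (od f) (free_od h)
    have h3 := step M h
    have h4 : stay (M + 1 + 2) f = 2 * ∑ c ∈ range (2 ^ (M + 2)),
        (f (2 * c) && f (2 * c + 1)).toNat + stay (M + 2) (ev f) + stay (M + 2) (od f) :=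
      stay_succ (M + 2) f
    have h5 : cnt (M + 3) f = cnt (M + 2) (ev f) + cnt (M + 2) (od f) := cnt_succ (M + 2) f
    rw [h4, show M + 1 + 2 = M + 3 from rfl]
    rw [h5] at h3 ⊢
    push_cast at h3 ⊢
    nlinarith

/-- **the sharp inequality** -/
theorem main (M : ℕ) (f : ℕ → Bool) (h : Free f) :
    2 * stay M f ≤ (M + 1) * cnt M f := by
  rcases Nat.lt_or_ge M 2 with hM | hM
  · interval_cases M
    · simp [stay]
    · simp only [stay, cnt, sum_range_succ, range_zero, sum_empty, pow_one, pow_zero]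
      cases f 0 <;> cases h1 : f 1 <;> simp [h1]
  obtain ⟨m, rfl⟩ : ∃ m, M = m + 2 := ⟨M - 2, by omega⟩
  have h1 := key m f h
  have h2 := W_le m h
  have h3 : 4 * (stay (m + 2) f : ℤ) ≤ 2 * ((m + 2 + 1) * cnt (m + 2) f) := by
    nlinarith
  have h4 : 4 * stay (m + 2) f ≤ 2 * ((m + 2 + 1) * cnt (m + 2) f) := by exact_mod_cast h3
  omega

end Pool.Agent.W5h68.RB
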