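import Pool.Agent.W5h68.RA.Core
import Pool.Agent.W5h68.RA.Szem

set_option autoImplicit false

/-!
# Relative density in sets with a small digit boundary
-/

namespace Pool.Agent.W5h68.RB

open Finset Function Pool.Agent.Y347.CO Pool.Agent.W5h68.RA

/-- the point `a` with the `t`-th binary digit of the `i`-th coordinate changed -/
def flipDigit {e : ℕ} (a : Fin e → ℕ) (i : Fin e) (t : ℕ) : Fin e → ℕ :=
  update a i (a i ^^^ 2 ^ t)

open Classical in
/-- the number of triples `(a, i, t)`, `t < M`, such that `a ∈ F` and `a` with the `t`-th binary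
digit of the `i`-th coordinate changed is not in `F` -/
noncomputable def exits (M : ℕ) {e : ℕ} (F : Finset (Fin e → ℕ)) : ℕ :=
  ∑ i : Fin e, ∑ t ∈ range M, (F.filter fun a => flipDigit a i t ∉ F).card

section
variable {e M K m : ℕ}

theorem ofBits_update (x : Fin M → Bool) (t : Fin M) :
    Nat.ofBits (update x t (!(x t))) = Nat.ofBits x ^^^ 2 ^ (t : ℕ) := by
  apply Nat.eq_of_testBit_eq
  intro i
  rw [Nat.testBit_xor, Nat.testBit_two_pow]
  rcases Nat.lt_or_ge i M with hi | hi
  · rw [Nat.testBit_ofBits_lt _ _ hi, Nat.testBit_ofBits_lt _ _ hi]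
    by_cases h : (⟨i, hi⟩ : Fin M) = t
    · subst h
      simp
    · rw [update_of_ne h]
      have : (t : ℕ) ≠ i := fun h' => h (Fin.ext h'.symm)
      simp [this]
  · rw [Nat.testBit_ofBits_ge _ _ hi, Nat.testBit_ofBits_ge _ _ hi]
    have : (t : ℕ) ≠ i := by
      have := t.2
      omega
    simp [this]

theorem pt_update (σ : Fin e × Fin M ≃ Fin K) (z : Fin K → Bool) (i : Fin e) (t : Fin M) :
    pt σ (update z (σ (i, t)) (!(z (σ (i, t))))) = flipDigit (pt σ z) i t := by
  funext i'
  unfold flipDigit pt
  by_cases h : i' = i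
  · subst h
    rw [update_self, ← ofBits_update]
    congr 1
    funext t'
    by_cases ht : t' = t
    · subst ht
      simp
    · rw [update_of_ne ht, update_of_ne]
      intro h'
      exact ht (congrArg Prod.snd (σ.injective h'))
  · rw [update_of_ne h]
    congr 1
    funext t'
    rw [update_of_ne]
    intro h'
    exact h (congrArg Prod.fst (σ.injective h'))

open Classical in
theorem exits_eq (σ : Fin e × Fin M ≃ Fin K) (F : Finset (Fin e → ℕ))
    (hF0 : ∀ a ∈ F, ∀ i, a i < 2 ^ M) :
    ∑ b, bd (univ.filter fun z => pt σ z ∈ F) b = exits M F := by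
  unfold exits
  rw [← Equiv.sum_comp σ, Fintype.sum_prod_type]
  apply sum_congr rfl
  intro i _
  rw [← Fin.sum_univ_eq_sum_range (fun t => (F.filter fun a => flipDigit a i t ∉ F).card) M]
  apply sum_congr rfl
  intro t _
  unfold bd
  apply card_bij' (fun z _ => pt σ z) (fun a _ => wd σ a)
  · intro z hz
    have h := mem_filter.1 hz
    refine mem_filter.2 ⟨(mem_filter.1 h.1).2, fun h2 => h.2 (mem_filter.2 ⟨mem_univ _, ?_⟩)⟩
    rw [pt_update]
    exact h2
  · intro a ha
    have h := mem_filter.1 ha
    refine mem_filter.2 ⟨mem_filter.2 ⟨mem_univ _, ?_⟩, fun h2 => h.2 ?_⟩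
    · rw [pt_wd σ a (hF0 a h.1)]
      exact h.1
    · have h3 := (mem_filter.1 h2).2
      rw [pt_update, pt_wd σ a (hF0 a h.1)] at h3
      exact h3
  · intro z _
    exact wd_pt σ z
  · intro a ha
    exact pt_wd σ a (hF0 a (mem_filter.1 ha).1)

/-- **the relative density in a set with a small digit boundary is at most the largest density in a
dilated grid** -/
theorem rel_exits (F A : Finset (Fin e → ℕ)) (hF0 : ∀ a ∈ F, ∀ i, a i < 2 ^ M)
    (r : ℕ) (hr : ∀ (c : Fin e → ℕ) (t : ℕ), 0 < t →
      ((Fintype.piFinset fun _ : Fin e => range (2 ^ m)).filter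
        fun u => (fun i => c i + t * u i) ∈ A).card ≤ r) :
    M / m * (2 ^ (e * m) * (A ∩ F).card) ≤ M / m * (r * F.card) + 2 ^ (e * m) * exits M F := by
  classical
  have σ : Fin e × Fin M ≃ Fin (e * M) := finProdFinEquiv
  set F' : Finset (Fin (e * M) → Bool) := univ.filter fun z => pt σ z ∈ F with hF'
  set A' : Finset (Fin (e * M) → Bool) := univ.filter fun z => pt σ z ∈ A with hA'
  have hinj : ∀ j : Fin (M / m), Injective (ps σ j : Fin e × Fin m → Fin (e * M)) :=
    fun j s s' h => (ps_inj σ j j s s' h).2
  have hjj : ∀ j : Fin (M / m), 2 ^ (e * m) * (A ∩ F).card ≤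
      r * F.card + 2 ^ (e * m) * ∑ b ∈ univ.image (ps σ j : Fin e × Fin m → Fin (e * M)),
        bd F' b := by
    intro j
    have h := rel_card (Equiv.refl _) F' A' (univ.image (ps σ j : Fin e × Fin m → Fin (e * M)))
      (T := Fin e × Fin m → Bool) (fun t x => flp (ps σ j) t x) ?_ r ?_
    · have hT : Fintype.card (Fin e × Fin m → Bool) = 2 ^ (e * m) := by
        rw [Fintype.card_fun, Fintype.card_bool, Fintype.card_prod, Fintype.card_fin,
          Fintype.card_fin]
      have h1 : (A ∩ F).card ≤ (A' ∩ F').card := by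
        refine card_le_card_of_injOn (wd σ) ?_ ?_
        · intro a ha
          have ha' := mem_inter.1 (mem_coe.1 ha)
          have h2 := hF0 a ha'.2
          refine mem_coe.2 (mem_inter.2 ⟨mem_filter.2 ⟨mem_univ _, ?_⟩,
            mem_filter.2 ⟨mem_univ _, ?_⟩⟩)
          · rw [pt_wd σ a h2]
            exact ha'.1
          · rw [pt_wd σ a h2]
            exact ha'.2
        · intro a ha b hb hab
          have ha' := hF0 a (mem_inter.1 (mem_coe.1 ha)).2
          have hb' := hF0 b (mem_inter.1 (mem_coe.1 hb)).2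
          rw [← pt_wd σ a ha', ← pt_wd σ b hb', hab]
      have h2 : F'.card ≤ F.card := by
        refine card_le_card_of_injOn (pt σ) ?_ ?_
        · intro z hz
          exact mem_coe.2 (mem_filter.1 (mem_coe.1 hz)).2
        · intro z _ z' _ hzz
          rw [← wd_pt σ z, hzz, wd_pt]
      rw [hT] at h
      have h3 : F'.map (Equiv.refl (Fin (e * M) → Bool)).toEmbedding = F' := by
        ext x
        simp
      rw [h3] at h
      have h4 := Nat.mul_le_mul_left (2 ^ (e * m)) h1
      have h5 := Nat.mul_le_mul_left r h2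
      omega
    · intro t
      exact ⟨(univ.filter fun s => t s = true).image (ps σ j), image_subset_image (subset_univ _),
        fun x => rfl⟩
    · intro x
      refine le_trans (card_le_card_of_injOn (fun t => fun i => Nat.ofBits fun s =>
        xor (x (ps σ j (i, s))) (t (i, s))) ?_ ?_)
        (hr (pt σ (extend (ps σ j) (fun _ => false) x)) (2 ^ ((j : ℕ) * m)) (by positivity))
      · intro t ht
        have ht' := (mem_filter.1 (mem_coe.1 ht)).2
        rw [flp_eq (hinj j)] at ht'
        have ht2 := (mem_filter.1 ht').2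
        refine mem_coe.2 (mem_filter.2 ⟨?_, ?_⟩)
        · rw [Fintype.mem_piFinset]
          intro i
          exact mem_range.2 (Nat.ofBits_lt_two_pow _)
        · convert ht2 using 1
          funext i
          exact (pt_extend σ j (fun s => xor (x (ps σ j s)) (t s)) x i).symm
      · intro t _ t' _ htt
        funext s
        obtain ⟨i, s⟩ := s
        have h1 := congrFun htt i
        have h2 := congrArg (fun n : ℕ => n.testBit s) h1
        simpa using h2
  have hsum := sum_le_sum fun j (_ : j ∈ (univ : Finset (Fin (M / m)))) => hjj j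
  rw [sum_const, sum_add_distrib, sum_const, card_univ, Fintype.card_fin, smul_eq_mul,
    smul_eq_mul, ← mul_sum] at hsum
  refine hsum.trans (Nat.add_le_add_left (Nat.mul_le_mul_left _ ?_) _)
  rw [← exits_eq σ F hF0, ← sum_biUnion]
  · exact sum_le_sum_of_subset (subset_univ _)
  · intro j _ j' _ hne
    rw [Function.onFun, disjoint_left]
    intro b hb hb'
    obtain ⟨s, -, rfl⟩ := mem_image.1 hb
    obtain ⟨s', -, h⟩ := mem_image.1 hb'
    exact hne (ps_inj σ j' j s' s h).1.symm

end

end Pool.Agent.W5h68.RB
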