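import Pool.Agent.W5h68.RB.Edge

set_option autoImplicit false

/-!
# The edge inequality for finite sets, and its sharpness
-/

namespace Pool.Agent.W5h68.RB

open Finset

theorem free_of {A : Finset ℕ} (hA : ThreeAPFree (A : Set ℕ)) : Free fun a => decide (a ∈ A) := by
  intro a d hd h1 h2
  by_contra h3
  have h3' : a + 2 * d ∈ A := by simpa using h3
  have h4 := hA (mem_coe.2 (of_decide_eq_true h1)) (mem_coe.2 (of_decide_eq_true h2))
    (mem_coe.2 h3') (by ring)
  omega

theorem cnt_of {M : ℕ} {A : Finset ℕ} (hM : ∀ a ∈ A, a < 2 ^ M) :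
    cnt M (fun a => decide (a ∈ A)) = A.card := by
  unfold cnt
  rw [card_eq_sum_ones, ← sum_subset (s₁ := A) (s₂ := range (2 ^ M))]
  · exact sum_congr rfl fun a ha => by simp [ha]
  · intro a ha
    exact mem_range.2 (hM a ha)
  · intro a _ ha
    simp [ha]

theorem stay_of {M : ℕ} {A : Finset ℕ} (hM : ∀ a ∈ A, a < 2 ^ M) :
    stay M (fun a => decide (a ∈ A)) = ∑ t ∈ range M, (A.filter fun a => a ^^^ 2 ^ t ∈ A).card := by
  unfold stay
  apply sum_congr rfl
  intro t _
  rw [card_eq_sum_ones, ← sum_subset (s₁ := A.filter fun a => a ^^^ 2 ^ t ∈ A)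
    (s₂ := range (2 ^ M))]
  · exact sum_congr rfl fun a ha => by
      have := mem_filter.1 ha
      simp [this.1, this.2]
  · intro a ha
    exact mem_range.2 (hM a (mem_filter.1 ha).1)
  · intro a _ ha
    rw [mem_filter, not_and_or] at ha
    rcases ha with ha | ha <;> simp [ha]

theorem edges {M : ℕ} {A : Finset ℕ} (hM : ∀ a ∈ A, a < 2 ^ M) (hA : ThreeAPFree (A : Set ℕ)) :
    2 * ∑ t ∈ range M, (A.filter fun a => a ^^^ 2 ^ t ∈ A).card ≤ (M + 1) * A.card := by
  have h := main M _ (free_of hA)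
  rwa [stay_of hM, cnt_of hM] at h

/-- all digits in base four are `0` or `1` -/
def mb (a : ℕ) : Bool := if h : a = 0 then true else (decide (a % 4 < 2) && mb (a / 4))
termination_by a
decreasing_by omega

theorem mb_eq (a : ℕ) : mb a = (decide (a % 4 < 2) && mb (a / 4)) := by
  rcases Nat.eq_zero_or_pos a with rfl | h
  · rw [mb]
    simp
  · rw [mb]
    simp [h.ne']

theorem mb0 (c : ℕ) : mb (4 * c) = mb c := by
  rw [mb_eq, show 4 * c % 4 = 0 by omega, show 4 * c / 4 = c by omega]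
  simp

theorem mb1 (c : ℕ) : mb (4 * c + 1) = mb c := by
  rw [mb_eq, show (4 * c + 1) % 4 = 1 by omega, show (4 * c + 1) / 4 = c by omega]
  simp

theorem mb2 (c : ℕ) : mb (4 * c + 2) = false := by
  rw [mb_eq, show (4 * c + 2) % 4 = 2 by omega]
  simp

theorem mb3 (c : ℕ) : mb (4 * c + 3) = false := by
  rw [mb_eq, show (4 * c + 3) % 4 = 3 by omega]
  simp

theorem mb_free : ∀ b a c : ℕ, mb a = true → mb b = true → mb c = true → a + c = b + b → a = b := by
  intro b
  induction b using Nat.strong_induction_on with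
  | _ b ih =>
    intro a c ha hb hc h
    rcases Nat.eq_zero_or_pos b with rfl | hb0
    · omega
    rw [mb_eq] at ha hb hc
    simp only [Bool.and_eq_true, decide_eq_true_eq] at ha hb hc
    have h1 := ih (b / 4) (by omega) (a / 4) (c / 4) ha.2 hb.2 hc.2 (by omega)
    omega

theorem ev_ev_mb : ev (ev mb) = mb := by
  funext c
  show mb (2 * (2 * c)) = mb c
  rw [show 2 * (2 * c) = 4 * c by ring, mb0]

theorem od_ev_mb : od (ev mb) = fun _ => false := by
  funext c
  show mb (2 * (2 * c + 1)) = false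
  rw [show 2 * (2 * c + 1) = 4 * c + 2 by ring, mb2]

theorem od_mb : od mb = ev mb := by
  funext c
  show mb (2 * c + 1) = mb (2 * c)
  rcases Nat.even_or_odd' c with ⟨k, rfl | rfl⟩
  · rw [show 2 * (2 * k) = 4 * k by ring, mb0, mb1]
  · rw [show 2 * (2 * k + 1) = 4 * k + 2 by ring, mb2, show 4 * k + 2 + 1 = 4 * k + 3 by ring, mb3]

theorem cnt_false (M : ℕ) : cnt M (fun _ => false) = 0 := by simp [cnt]

theorem stay_false (M : ℕ) : stay M (fun _ => false) = 0 := by simp [stay]

theorem cnt_ev (M : ℕ) : cnt (M + 1) (ev mb) = cnt M mb := by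
  rw [cnt_succ, ev_ev_mb, od_ev_mb, cnt_false, add_zero]

theorem cnt_mb (M : ℕ) : cnt (M + 2) mb = 2 * cnt M mb := by
  rw [cnt_succ, od_mb, cnt_ev]
  ring

theorem stay_ev (M : ℕ) : stay (M + 1) (ev mb) = stay M mb := by
  rw [stay_succ, ev_ev_mb, od_ev_mb, stay_false]
  have : ∀ c ∈ range (2 ^ M), (ev mb (2 * c) && ev mb (2 * c + 1)).toNat = 0 := by
    intro c _
    have : ev mb (2 * c + 1) = false := congrFun od_ev_mb c
    rw [this]
    simp
  rw [sum_eq_zero this]
  ring

theorem stay_mb (M : ℕ) : stay (M + 2) mb = 2 * cnt M mb + 2 * stay M mb := by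
  rw [stay_succ, od_mb, stay_ev]
  have : ∑ c ∈ range (2 ^ (M + 1)), (mb (2 * c) && mb (2 * c + 1)).toNat = cnt (M + 1) (ev mb) := by
    unfold cnt
    apply sum_congr rfl
    intro c _
    have : mb (2 * c + 1) = mb (2 * c) := congrFun od_mb c
    rw [this, Bool.and_self]
    rfl
  rw [this, cnt_ev]
  ring

theorem mb_one : mb 1 = true := by
  rw [mb]
  simp
  rw [mb]
  simp

theorem mb_zero : mb 0 = true := by
  rw [mb]
  simp

theorem cnt_odd (n : ℕ) : cnt (2 * n + 1) mb = 2 ^ (n + 1) := by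
  induction n with
  | zero => simp [cnt, sum_range_succ, mb_one, mb_zero]
  | succ n ih =>
    rw [show 2 * (n + 1) + 1 = (2 * n + 1) + 2 by ring, cnt_mb, ih]
    ring

theorem stay_odd (n : ℕ) : stay (2 * n + 1) mb = (n + 1) * cnt (2 * n + 1) mb := by
  induction n with
  | zero => simp [cnt, stay, sum_range_succ, mb_one, mb_zero]
  | succ n ih =>
    rw [show 2 * (n + 1) + 1 = (2 * n + 1) + 2 by ring, cnt_mb, stay_mb, ih]
    ring

theorem sharp (n : ℕ) : ∃ A : Finset ℕ, (∀ a ∈ A, a < 2 ^ (2 * n + 1)) ∧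
    ThreeAPFree (A : Set ℕ) ∧ A.card = 2 ^ (n + 1) ∧
    2 * ∑ t ∈ range (2 * n + 1), (A.filter fun a => a ^^^ 2 ^ t ∈ A).card =
      (2 * n + 1 + 1) * A.card := by
  set A : Finset ℕ := (range (2 ^ (2 * n + 1))).filter fun a => mb a = true with hA
  have hlt : ∀ a ∈ A, a < 2 ^ (2 * n + 1) := fun a ha => mem_range.1 (mem_filter.1 ha).1
  have hcnt : cnt (2 * n + 1) (fun a => decide (a ∈ A)) = cnt (2 * n + 1) mb := by
    unfold cnt
    apply sum_congr rfl
    intro a ha
    congr 1
    have : (a ∈ A) ↔ mb a = true := by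
      rw [hA, mem_filter]
      exact ⟨fun h => h.2, fun h => ⟨ha, h⟩⟩
    show decide (a ∈ A) = mb a
    cases h : mb a
    · exact decide_eq_false fun h' => by rw [this.1 h'] at h; exact Bool.noConfusion h
    · exact decide_eq_true (this.2 h)
  have hstay : stay (2 * n + 1) (fun a => decide (a ∈ A)) = stay (2 * n + 1) mb := by
    unfold stay
    apply sum_congr rfl
    intro t ht
    apply sum_congr rfl
    intro a ha
    have h1 : ∀ b, b < 2 ^ (2 * n + 1) → decide (b ∈ A) = mb b := by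
      intro b hb
      have : (b ∈ A) ↔ mb b = true := by
        rw [hA, mem_filter]
        exact ⟨fun h => h.2, fun h => ⟨mem_range.2 hb, h⟩⟩
      cases h : mb b
      · exact decide_eq_false fun h' => by rw [this.1 h'] at h; exact Bool.noConfusion h
      · exact decide_eq_true (this.2 h)
    have h2 : a ^^^ 2 ^ t < 2 ^ (2 * n + 1) :=
      Nat.xor_lt_two_pow (mem_range.1 ha) (Nat.pow_lt_pow_right (by norm_num) (mem_range.1 ht))
    show (decide (a ∈ A) && decide (a ^^^ 2 ^ t ∈ A)).toNat = _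
    rw [h1 a (mem_range.1 ha), h1 _ h2]
  have hcard : A.card = cnt (2 * n + 1) mb := by rw [← hcnt, cnt_of hlt]
  refine ⟨A, hlt, ?_, ?_, ?_⟩
  · intro a ha b hb c hc h
    exact mb_free b a c (mem_filter.1 (mem_coe.1 ha)).2 (mem_filter.1 (mem_coe.1 hb)).2
      (mem_filter.1 (mem_coe.1 hc)).2 h
  · rw [hcard, cnt_odd]
  · rw [← stay_of hlt, hstay, hcard, stay_odd]
    ring

end Pool.Agent.W5h68.RB
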